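import Pool.Agent.helper52.TG.FI1

/-!
GNU project, analytic part, module fi:2: the primes for the group orders, from the ternary
theorem.
-/

set_option autoImplicit false

namespace Pool.Agent.helper74.TG

open Finset

/-- The statement of the ternary theorem (module wt:8). -/
def helper52_Ternary : Prop :=
  ∀ (m : Fin 3 → ℕ), (∀ i, 0 < m i) → (∀ i, ∀ p : ℕ, p.Prime → p ≤ 19 → p ∣ m i) →
    ∀ (δ : ℝ), 0 < δ →
    ∃ n₀ : ℕ, ∀ c : Fin 3 → ℕ, (∀ i, c i < m i) → (∀ i, Nat.Coprime (c i) (m i)) →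
      ∀ n : ℕ, n₀ ≤ n → ∀ lo hi : Fin 3 → ℕ, (∀ i, hi i ≤ n) →
      δ * (n : ℝ) ^ 2 ≤ ((Fintype.piFinset fun i : Fin 3 => Ioc (lo i) (hi i)).filter
        fun x => ∑ i, x i = n).card →
      ∃ x : Fin 3 → ℕ, (∀ i, lo i < x i ∧ x i ≤ hi i) ∧ ∑ i, x i = n ∧
        ∀ i, (m i * x i + c i).Prime

/-- the number of solutions in the windows -/
theorem helper52_window (n : ℕ) (hn : 1000 ≤ n) :
    (1 / 88000 : ℝ) * (n : ℝ) ^ 2 ≤ ((Fintype.piFinset fun i : Fin 3 =>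
      Ioc ((![2 * n / 5, n / 22, n / 2] : Fin 3 → ℕ) i)
        ((![9 * n / 20, n / 20, 11 * n / 20] : Fin 3 → ℕ) i)).filter
        fun x => ∑ i, x i = n).card := by
  set S := ((Fintype.piFinset fun i : Fin 3 =>
      Ioc ((![2 * n / 5, n / 22, n / 2] : Fin 3 → ℕ) i)
        ((![9 * n / 20, n / 20, 11 * n / 20] : Fin 3 → ℕ) i)).filter
        fun x => ∑ i, x i = n) with hS
  have h1 : (Ioc (42 * n / 100) (43 * n / 100) ×ˢ Ioc (n / 22) (n / 20)).card ≤ S.card := by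
    refine Finset.card_le_card_of_injOn (fun p => ![p.1, p.2, n - p.1 - p.2]) ?_ ?_
    · rintro ⟨x, y⟩ hxy
      simp only [Finset.coe_product, Set.mem_prod, Finset.mem_coe, Finset.mem_Ioc] at hxy
      obtain ⟨⟨hx1, hx2⟩, hy1, hy2⟩ := hxy
      simp only [hS, Finset.coe_filter, Set.mem_ofPred_eq, Fintype.mem_piFinset, Finset.mem_Ioc]
      constructor
      · intro i
        fin_cases i
        · show 2 * n / 5 < x ∧ x ≤ 9 * n / 20
          omega
        · show n / 22 < y ∧ y ≤ n / 20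
          omega
        · show n / 2 < n - x - y ∧ n - x - y ≤ 11 * n / 20
          omega
      · rw [Fin.sum_univ_three]
        show x + y + (n - x - y) = n
        omega
    · rintro ⟨x, y⟩ _ ⟨x', y'⟩ _ h
      have h0 := congrFun h 0
      have h1 := congrFun h 1
      exact Prod.ext h0 h1
  rw [Finset.card_product, Nat.card_Ioc, Nat.card_Ioc] at h1
  have h2 : n ≤ 200 * (43 * n / 100 - 42 * n / 100) := by omega
  have h3 : n ≤ 440 * (n / 20 - n / 22) := by omega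
  have h4 : n * n ≤ 88000 * S.card := by
    calc n * n ≤ (200 * (43 * n / 100 - 42 * n / 100)) * (440 * (n / 20 - n / 22)) :=
          Nat.mul_le_mul h2 h3
      _ = 88000 * ((43 * n / 100 - 42 * n / 100) * (n / 20 - n / 22)) := by ring
      _ ≤ 88000 * S.card := Nat.mul_le_mul_left _ h1
  have h5 : (n : ℝ) * n ≤ 88000 * (S.card : ℝ) := by exact_mod_cast h4
  rw [sq]
  linarith

theorem helper52_dvdW (p : ℕ) (hp : p.Prime) (h : p ≤ 19) : p ∣ 9699690 := by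
  interval_cases p <;> first | (norm_num; done) | exact absurd hp (by norm_num)

/-- fi:2 from the ternary theorem. -/
theorem BCD_exist_of (ht : helper52_Ternary) :
    ∃ K₀ : ℕ, ∀ k : ℕ, K₀ ≤ k → ∃ B C D : ℕ, B.Prime ∧ C.Prime ∧ D.Prime ∧
    7 < B ∧ 7 < C ∧ 7 < D ∧ B ≠ C ∧ B ≠ D ∧ C ≠ D ∧ D % 42 = 1 ∧ ¬ 7 ∣ B - 1 ∧ ¬ 7 ∣ C - 1 ∧
    ¬ B ∣ C - 1 ∧ ¬ C ∣ B - 1 ∧ ¬ B ∣ D - 1 ∧ ¬ D ∣ B - 1 ∧ ¬ C ∣ D - 1 ∧ ¬ D ∣ C - 1 ∧
    6 * k = 45 * C + 36 * B + 4 * D + 641 := by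
  obtain ⟨n₀, hn₀⟩ := ht ![4 * 9699690, 45 * 9699690, 5 * 9699690]
    (by intro i; fin_cases i <;> norm_num)
    (by
      intro i p hp h
      have h1 := helper52_dvdW p hp h
      fin_cases i
      · exact Dvd.dvd.mul_left h1 4
      · exact Dvd.dvd.mul_left h1 45
      · exact Dvd.dvd.mul_left h1 5) (1 / 88000) (by norm_num)
  refine ⟨180 * 9699690 * (n₀ + 1010), fun k hk => ?_⟩
  obtain ⟨c, b, d, hc, hb, hd, cc, cb, cd, hcong, h42, hc7, hb7⟩ := local_sol k (by omega)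
  -- the value of `n`
  obtain ⟨n, hn⟩ : ∃ n, 6 * k - 641 = 45 * c + 36 * b + 4 * d + 180 * 9699690 * n := by
    have hle : 45 * c + 36 * b + 4 * d ≤ 6 * k - 641 := by omega
    obtain ⟨n, hn⟩ := (Nat.modEq_iff_dvd' hle).1 hcong
    exact ⟨n, by omega⟩
  have hnn : n₀ + 1000 ≤ n := by omega
  obtain ⟨x, hx, hxs, hxp⟩ := hn₀ ![c, d, b]
    (by
      intro i
      fin_cases i
      · exact hc
      · exact hd
      · exact hb)
    (by
      intro i
      fin_cases i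
      · exact cc
      · exact cd
      · exact cb) n (by omega) ![2 * n / 5, n / 22, n / 2] ![9 * n / 20, n / 20, 11 * n / 20]
    (by
      intro i
      fin_cases i
      · show 9 * n / 20 ≤ n
        omega
      · show n / 20 ≤ n
        omega
      · show 11 * n / 20 ≤ n
        omega) (helper52_window n (by omega))
  have hx0 : 2 * n / 5 < x 0 ∧ x 0 ≤ 9 * n / 20 := hx 0
  have hx1 : n / 22 < x 1 ∧ x 1 ≤ n / 20 := hx 1
  have hx2 : n / 2 < x 2 ∧ x 2 ≤ 11 * n / 20 := hx 2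
  rw [Fin.sum_univ_three] at hxs
  have hp0 : (4 * 9699690 * x 0 + c).Prime := hxp 0
  have hp1 : (45 * 9699690 * x 1 + d).Prime := hxp 1
  have hp2 : (5 * 9699690 * x 2 + b).Prime := hxp 2
  obtain ⟨C, hC⟩ : ∃ C, C = 4 * 9699690 * x 0 + c := ⟨_, rfl⟩
  obtain ⟨D, hD⟩ : ∃ D, D = 45 * 9699690 * x 1 + d := ⟨_, rfl⟩
  obtain ⟨B, hB⟩ : ∃ B, B = 5 * 9699690 * x 2 + b := ⟨_, rfl⟩
  rw [← hC] at hp0
  rw [← hD] at hp1
  rw [← hB] at hp2
  -- sizes
  have hCD : C < D := by omega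
  have hDB : D < B := by omega
  have hBC : B < 2 * C := by omega
  have hC7 : 7 < C := by omega
  have hodd : ∀ {p : ℕ}, p.Prime → 7 < p → p % 2 = 1 := fun hp h7 =>
    hp.eq_two_or_odd.resolve_left (by omega)
  have oC := hodd hp0 hC7
  have oD := hodd hp1 (by omega)
  have oB := hodd hp2 (by omega)
  have hlt : ∀ {p q : ℕ}, 0 < q - 1 → q - 1 < p → ¬ p ∣ q - 1 := fun h0 h1 h2 =>
    absurd (Nat.le_of_dvd h0 h2) (not_le.2 h1)
  have hmid : ∀ {p q : ℕ}, p % 2 = 1 → q % 2 = 1 → p < q → q < 2 * p → ¬ p ∣ q - 1 := by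
    rintro p q op oq h1 h2 ⟨t, ht⟩
    rcases t with _ | _ | t
    · omega
    · omega
    · have : p * 2 ≤ p * (t + 1 + 1) := Nat.mul_le_mul_left p (by omega)
      omega
  refine ⟨B, C, D, hp2, hp0, hp1, by omega, hC7, by omega, by omega, by omega, by omega, ?_, ?_,
    ?_, hlt (by omega) (by omega), hmid oC oB (by omega) hBC, hlt (by omega) (by omega),
    hmid oD oB hDB (by omega), hmid oC oD hCD (by omega), hlt (by omega) (by omega), ?_⟩
  · clear * - hD h42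
    omega
  · clear * - hB hb7 hC7 hCD hDB
    omega
  · clear * - hC hc7 hC7
    omega
  · clear * - hn hC hD hB hxs hk
    omega

end Pool.Agent.helper74.TG
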