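import Pool.Agent.helper18.TG.WT5
import Pool.Agent.helper61.TG.WT6

/-!
GNU project, analytic part, module wt:8: the ternary theorem, from the closeness of the weight to
the model (wt:4) and the model count (wt:7).
-/

set_option autoImplicit false

namespace Pool.Agent.helper74.TG

open Finset

/-- the statement of wt:4 -/
def helper52_Close : Prop :=
  ∀ (m c : ℕ), 0 < m → Nat.Coprime c m → ∃ N₀ : ℕ, ∀ N : ℕ, N₀ ≤ N →
    ∀ α : ℝ, ∀ u : ℕ, u ≤ N →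
    ‖∑ x ∈ Ioc 0 u, ((fw m c x : ℂ) - gm m c ⌊Real.log N ^ 44⌋₊ x) * ee (x * α)‖
      ≤ N / Real.log N ^ 14

/-- the statement of wt:7 -/
def helper52_Count : Prop :=
  ∀ (m c : Fin 3 → ℕ), (∀ i, 0 < m i) →
    (∀ i, ∀ p : ℕ, p.Prime → p ≤ 19 → p ∣ m i) → ∀ (n Q : ℕ), 0 < Q →
    ∀ (lo hi : Fin 3 → ℕ), (∀ i, hi i ≤ n) → ∀ (T : ℕ),
    T = ((Fintype.piFinset fun i : Fin 3 => Ioc (lo i) (hi i)).filter
      fun x => ∑ i, x i = n).card →
    (T : ℝ) / 2 - n * Q ^ 8 ≤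
      ‖∑ x ∈ (Fintype.piFinset fun i : Fin 3 => Ioc (lo i) (hi i)) with ∑ i, x i = n,
        ∏ i, gm (m i) (c i) Q (x i)‖

theorem helper52_Ioc_bound (F : ℕ → ℂ) (lo hi n : ℕ) (hhi : hi ≤ n) (R : ℝ) (hR0 : 0 ≤ R)
    (hR : ∀ u : ℕ, u ≤ n → ‖∑ x ∈ Ioc 0 u, F x‖ ≤ R) :
    ‖∑ x ∈ Ioc lo hi, F x‖ ≤ 2 * R := by
  by_cases h : lo ≤ hi
  · have h1 : ∑ x ∈ Ioc 0 lo, F x + ∑ x ∈ Ioc lo hi, F x = ∑ x ∈ Ioc 0 hi, F x :=
      Finset.sum_Ioc_consecutive F (Nat.zero_le lo) h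
    have h2 : ∑ x ∈ Ioc lo hi, F x = ∑ x ∈ Ioc 0 hi, F x - ∑ x ∈ Ioc 0 lo, F x := by
      rw [← h1]
      ring
    rw [h2]
    calc ‖∑ x ∈ Ioc 0 hi, F x - ∑ x ∈ Ioc 0 lo, F x‖
        ≤ ‖∑ x ∈ Ioc 0 hi, F x‖ + ‖∑ x ∈ Ioc 0 lo, F x‖ := norm_sub_le _ _
      _ ≤ R + R := add_le_add (hR hi hhi) (hR lo (h.trans hhi))
      _ = 2 * R := by ring
  · rw [Finset.Ioc_eq_empty (by omega), Finset.sum_empty, norm_zero]
    linarith

/-- the numerical condition for large `n` -/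
theorem helper52_large (δ : ℝ) (hδ : 0 < δ) : ∃ n₁ : ℕ, ∀ n : ℕ, n₁ ≤ n →
    1 ≤ Real.log n ∧ (n : ℝ) * Real.log n ^ 352 ≤ δ / 8 * (n : ℝ) ^ 2 ∧
    6 * (n : ℝ) ^ 2 / Real.log n ^ 2 ≤ δ / 8 * (n : ℝ) ^ 2 := by
  have h1 : ∀ᶠ x : ℝ in Filter.atTop, Real.log x ^ 352 ≤ δ / 8 * x := by
    have h := (Real.isLittleO_pow_log_id_atTop (n := 352)).bound (show 0 < δ / 8 by positivity)
    filter_upwards [h, Filter.eventually_ge_atTop 1] with x hx hx1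
    rw [Real.norm_eq_abs, Real.norm_eq_abs, id, abs_of_nonneg (pow_nonneg (Real.log_nonneg hx1) _),
      abs_of_nonneg (by linarith)] at hx
    exact hx
  have h2 : ∀ᶠ x : ℝ in Filter.atTop, 1 + 48 / δ ≤ Real.log x :=
    Real.tendsto_log_atTop.eventually_ge_atTop _
  have h3 := (tendsto_natCast_atTop_atTop (R := ℝ)).eventually (h1.and (h2.and
    (Filter.eventually_ge_atTop 1)))
  obtain ⟨n₁, hn₁⟩ := Filter.eventually_atTop.1 h3
  refine ⟨n₁, fun n hn => ?_⟩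
  obtain ⟨ha, hb, hc⟩ := hn₁ n hn
  have hd : 0 < 48 / δ := by positivity
  have hL : 1 ≤ Real.log n := by linarith
  refine ⟨hL, ?_, ?_⟩
  · calc (n : ℝ) * Real.log n ^ 352 ≤ n * (δ / 8 * n) := by gcongr
      _ = δ / 8 * (n : ℝ) ^ 2 := by ring
  · have hL2 : 48 / δ ≤ Real.log n ^ 2 := by
      calc 48 / δ ≤ Real.log n := by linarith
        _ = Real.log n * 1 := (mul_one _).symm
        _ ≤ Real.log n * Real.log n := by gcongr
        _ = Real.log n ^ 2 := (sq _).symm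
    rw [div_le_iff₀ (by positivity)]
    have h4 : 48 ≤ δ * Real.log n ^ 2 := by
      rw [div_le_iff₀ hδ] at hL2
      linarith
    nlinarith [sq_nonneg (n : ℝ)]

theorem ternary_of (hclose : helper52_Close) (hcount : helper52_Count)
    (m : Fin 3 → ℕ) (hm : ∀ i, 0 < m i)
    (h19 : ∀ i, ∀ p : ℕ, p.Prime → p ≤ 19 → p ∣ m i) (δ : ℝ) (hδ : 0 < δ) :
    ∃ n₀ : ℕ, ∀ c : Fin 3 → ℕ, (∀ i, c i < m i) → (∀ i, Nat.Coprime (c i) (m i)) →
      ∀ n : ℕ, n₀ ≤ n → ∀ lo hi : Fin 3 → ℕ, (∀ i, hi i ≤ n) →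
      δ * (n : ℝ) ^ 2 ≤ ((Fintype.piFinset fun i : Fin 3 => Ioc (lo i) (hi i)).filter
        fun x => ∑ i, x i = n).card →
      ∃ x : Fin 3 → ℕ, (∀ i, lo i < x i ∧ x i ≤ hi i) ∧ ∑ i, x i = n ∧
        ∀ i, (m i * x i + c i).Prime := by
  classical
  have h6 : ∀ i, 6 ∣ m i := fun i => by
    have h := Nat.Coprime.mul_dvd_of_dvd_of_dvd (show Nat.Coprime 2 3 by norm_num)
      (h19 i 2 (by norm_num) (by norm_num)) (h19 i 3 (by norm_num) (by norm_num))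
    simpa using h
  -- thresholds
  have hex : ∀ (i : Fin 3) (r : ℕ), ∃ N₀ : ℕ, Nat.Coprime r (m i) → ∀ N : ℕ, N₀ ≤ N →
      (∀ α : ℝ, ∀ u : ℕ, u ≤ N →
        ‖∑ x ∈ Ioc 0 u, ((fw (m i) r x : ℂ) - gm (m i) r ⌊Real.log N ^ 44⌋₊ x) * ee (x * α)‖
          ≤ N / Real.log N ^ 14) ∧
      (∑ x ∈ Ioc 0 N, ‖(fw (m i) r x : ℂ)‖ ^ 2 ≤ N * Real.log N ^ 12) ∧
      (∑ x ∈ Ioc 0 N, ‖gm (m i) r ⌊Real.log N ^ 44⌋₊ x‖ ^ 2 ≤ N * Real.log N ^ 12) := by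
    intro i r
    by_cases hr : Nat.Coprime r (m i)
    · obtain ⟨N1, h1⟩ := hclose (m i) r (hm i) hr
      obtain ⟨N2, h2⟩ := fw_sq (m i) r (hm i)
      obtain ⟨N3, h3⟩ := gm_sq (m i) r (hm i) (h6 i)
      refine ⟨max N1 (max N2 N3), fun _ N hN => ⟨?_, ?_, ?_⟩⟩
      · exact h1 N (le_trans (le_max_left _ _) hN)
      · exact h2 N (le_trans (le_trans (le_max_left _ _) (le_max_right _ _)) hN)
      · exact h3 N (le_trans (le_trans (le_max_right _ _) (le_max_right _ _)) hN)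
    · exact ⟨0, fun h => absurd h hr⟩
  choose N₀ hN₀ using hex
  obtain ⟨n₁, hn₁⟩ := helper52_large δ hδ
  refine ⟨max n₁ (∑ i : Fin 3, ∑ r ∈ range (m i), N₀ i r), ?_⟩
  intro c hc hcc n hn lo hi hhi hT
  have hnn1 : n₁ ≤ n := le_trans (le_max_left _ _) hn
  have hnN : ∀ i, N₀ i (c i) ≤ n := by
    intro i
    refine le_trans ?_ (le_trans (le_max_right _ _) hn)
    calc N₀ i (c i) ≤ ∑ r ∈ range (m i), N₀ i r :=
          Finset.single_le_sum (fun r _ => Nat.zero_le _) (Finset.mem_range.2 (hc i))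
      _ ≤ ∑ i : Fin 3, ∑ r ∈ range (m i), N₀ i r :=
          Finset.single_le_sum (f := fun i => ∑ r ∈ range (m i), N₀ i r)
            (fun r _ => Nat.zero_le _) (Finset.mem_univ i)
  obtain ⟨hL, hb1, hb2⟩ := hn₁ n hnn1
  have hLpos : 0 < Real.log n := by linarith
  have hnpos : (0 : ℝ) ≤ n := Nat.cast_nonneg n
  set L := Real.log n with hLdef
  set Q := ⌊L ^ 44⌋₊ with hQ
  have hQpos : 0 < Q := Nat.floor_pos.2 (one_le_pow₀ hL)
  have hQ8 : (Q : ℝ) ^ 8 ≤ L ^ 352 := by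
    have h1 : (Q : ℝ) ≤ L ^ 44 := Nat.floor_le (by positivity)
    calc (Q : ℝ) ^ 8 ≤ (L ^ 44) ^ 8 := pow_le_pow_left₀ (Nat.cast_nonneg _) h1 8
      _ = L ^ 352 := by rw [← pow_mul]
  have hcirc := circle (fun i x => (fw (m i) (c i) x : ℂ)) (fun i x => gm (m i) (c i) Q x)
    lo hi n (2 * (n / L ^ 14)) (n * L ^ 12)
    (by
      intro i
      refine le_trans ?_ (hN₀ i (c i) (hcc i) n (hnN i)).2.1
      exact Finset.sum_le_sum_of_subset_of_nonneg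
        (Finset.Ioc_subset_Ioc (Nat.zero_le _) (hhi i)) (fun _ _ _ => by positivity))
    (by
      intro i
      refine le_trans ?_ (hN₀ i (c i) (hcc i) n (hnN i)).2.2
      exact Finset.sum_le_sum_of_subset_of_nonneg
        (Finset.Ioc_subset_Ioc (Nat.zero_le _) (hhi i)) (fun _ _ _ => by positivity))
    (by
      intro i α
      exact helper52_Ioc_bound _ (lo i) (hi i) n (hhi i) _ (by positivity)
        (fun u hu => (hN₀ i (c i) (hcc i) n (hnN i)).1 α u hu))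
  have hcnt := hcount m c hm h19 n Q hQpos lo hi hhi _ rfl
  set Sset := (Fintype.piFinset fun i : Fin 3 => Ioc (lo i) (hi i)).filter
    fun x => ∑ i, x i = n with hSset
  by_contra hno
  push Not at hno
  have hzero : ∀ x ∈ Sset, ∏ i, (fw (m i) (c i) (x i) : ℂ) = 0 := by
    intro x hx
    rw [hSset, Finset.mem_filter, Fintype.mem_piFinset] at hx
    obtain ⟨i, hi'⟩ := hno x (fun i => Finset.mem_Ioc.1 (hx.1 i)) hx.2
    refine Finset.prod_eq_zero (Finset.mem_univ i) ?_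
    rw [fw, if_neg hi', mul_zero, Complex.ofReal_zero]
  have hsum : ∑ x ∈ Sset, (∏ i, (fw (m i) (c i) (x i) : ℂ) - ∏ i, gm (m i) (c i) Q (x i)) =
      -∑ x ∈ Sset, ∏ i, gm (m i) (c i) Q (x i) := by
    rw [← Finset.sum_neg_distrib]
    refine Finset.sum_congr rfl fun x hx => ?_
    rw [hzero x hx, zero_sub]
  have hcirc' : ‖∑ x ∈ Sset, ∏ i, gm (m i) (c i) Q (x i)‖ ≤
      3 * (2 * (n / L ^ 14)) * (n * L ^ 12) := by
    rw [← norm_neg, ← hsum]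
    exact hcirc
  have hRS : 3 * (2 * ((n : ℝ) / L ^ 14)) * (n * L ^ 12) = 6 * (n : ℝ) ^ 2 / L ^ 2 := by
    field_simp
    ring
  rw [hRS] at hcirc'
  have h8 : (n : ℝ) * (Q : ℝ) ^ 8 ≤ δ / 8 * (n : ℝ) ^ 2 :=
    (mul_le_mul_of_nonneg_left hQ8 hnpos).trans hb1
  have hn2 : 0 < (n : ℝ) ^ 2 := by
    have : 0 < (n : ℝ) := by
      rcases Nat.eq_zero_or_pos n with h0 | h0
      · exfalso
        rw [hLdef, h0] at hL
        simp at hL
        linarith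
      · exact_mod_cast h0
    positivity
  have hfin := hcnt.trans (hcirc'.trans hb2)
  nlinarith [mul_pos hδ hn2]

end Pool.Agent.helper74.TG
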