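import Pool.Agent.helper74.TG.Defs

/-!
GNU project, analytic part, module fi:1: the local conditions.
-/

set_option autoImplicit false

namespace Pool.Agent.helper74.TG

theorem helper52_crt8 (r1 r2 r3 r4 r5 r6 r7 r8 : ℕ) : ∃ x : ℕ, x % 8 = r1 % 8 ∧
    x % 27 = r2 % 27 ∧ x % 25 = r3 % 25 ∧ x % 7 = r4 % 7 ∧ x % 11 = r5 % 11 ∧
    x % 13 = r6 % 13 ∧ x % 17 = r7 % 17 ∧ x % 19 = r8 % 19 := by
  refine ⟨218243025 * r1 + 711310600 * r2 + 488864376 * r3 + 997682400 * r4 + 1587222000 * r5 + 537213600 * r6 + 513513000 * r7 + 183783600 * r8,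
    ?_, ?_, ?_, ?_, ?_, ?_, ?_, ?_⟩ <;> omega

theorem helper52_loc7 : ∀ M < 7, ∃ c < 7, ∃ b < 7, c ≠ 0 ∧ c ≠ 1 ∧ b ≠ 0 ∧ b ≠ 1 ∧
    (45 * c + 36 * b + 4) % 7 = M := by decide

theorem helper52_loc11 : ∀ M < 11, ∃ c < 11, ∃ b < 11, c ≠ 0 ∧ b ≠ 0 ∧
    (45 * c + 36 * b + 4) % 11 = M := by decide

theorem helper52_loc13 : ∀ M < 13, ∃ c < 13, ∃ b < 13, c ≠ 0 ∧ b ≠ 0 ∧
    (45 * c + 36 * b + 4) % 13 = M := by decide

theorem helper52_loc17 : ∀ M < 17, ∃ c < 17, ∃ b < 17, c ≠ 0 ∧ b ≠ 0 ∧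
    (45 * c + 36 * b + 4) % 17 = M := by decide

theorem helper52_loc19 : ∀ M < 19, ∃ c < 19, ∃ b < 19, c ≠ 0 ∧ b ≠ 0 ∧
    (45 * c + 36 * b + 4) % 19 = M := by decide

theorem helper52_cop {x p : ℕ} (hp : p.Prime) (h : x % p ≠ 0) : Nat.Coprime x p :=
  ((Nat.Prime.coprime_iff_not_dvd hp).2 fun h1 => h (Nat.mod_eq_zero_of_dvd h1)).symm

theorem helper52_copW {x : ℕ} (h2 : x % 2 ≠ 0) (h3 : x % 3 ≠ 0) (h5 : x % 5 ≠ 0) (h7 : x % 7 ≠ 0)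
    (h11 : x % 11 ≠ 0) (h13 : x % 13 ≠ 0) (h17 : x % 17 ≠ 0) (h19 : x % 19 ≠ 0) :
    Nat.Coprime x 9699690 := by
  have e : 9699690 = 2 * 3 * 5 * 7 * 11 * 13 * 17 * 19 := by norm_num
  rw [e]
  exact ((((((((helper52_cop (by norm_num) h2).mul_right (helper52_cop (by norm_num) h3)).mul_right
    (helper52_cop (by norm_num) h5)).mul_right (helper52_cop (by norm_num) h7)).mul_right
    (helper52_cop (by norm_num) h11)).mul_right (helper52_cop (by norm_num) h13)).mul_right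
    (helper52_cop (by norm_num) h17)).mul_right (helper52_cop (by norm_num) h19))

/-- the eight congruences -/
theorem helper52_all {X Y : ℕ} (m1 : X % 8 = Y % 8) (m2 : X % 27 = Y % 27) (m3 : X % 25 = Y % 25)
    (m4 : X % 7 = Y % 7) (m5 : X % 11 = Y % 11) (m6 : X % 13 = Y % 13) (m7 : X % 17 = Y % 17)
    (m8 : X % 19 = Y % 19) : X ≡ Y [MOD 180 * 9699690] := by
  have e : 180 * 9699690 = 8 * 27 * 25 * 7 * 11 * 13 * 17 * 19 := by norm_num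
  rw [e]
  have c1 : Nat.Coprime 8 27 := by norm_num
  have c2 : Nat.Coprime (8 * 27) 25 := by norm_num
  have c3 : Nat.Coprime (8 * 27 * 25) 7 := by norm_num
  have c4 : Nat.Coprime (8 * 27 * 25 * 7) 11 := by norm_num
  have c5 : Nat.Coprime (8 * 27 * 25 * 7 * 11) 13 := by norm_num
  have c6 : Nat.Coprime (8 * 27 * 25 * 7 * 11 * 13) 17 := by norm_num
  have c7 : Nat.Coprime (8 * 27 * 25 * 7 * 11 * 13 * 17) 19 := by norm_num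
  rw [← Nat.modEq_and_modEq_iff_modEq_mul c7, ← Nat.modEq_and_modEq_iff_modEq_mul c6,
    ← Nat.modEq_and_modEq_iff_modEq_mul c5, ← Nat.modEq_and_modEq_iff_modEq_mul c4,
    ← Nat.modEq_and_modEq_iff_modEq_mul c3, ← Nat.modEq_and_modEq_iff_modEq_mul c2,
    ← Nat.modEq_and_modEq_iff_modEq_mul c1]
  exact ⟨⟨⟨⟨⟨⟨⟨m1, m2⟩, m3⟩, m4⟩, m5⟩, m6⟩, m7⟩, m8⟩

/-- residues of `c` -/
theorem helper52_res {x r8 r27 r25 r7 r11 r13 r17 r19 : ℕ} (e1 : x % 8 = r8 % 8)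
    (e2 : x % 27 = r27 % 27) (e3 : x % 25 = r25 % 25) (e4 : x % 7 = r7 % 7)
    (e5 : x % 11 = r11 % 11) (e6 : x % 13 = r13 % 13) (e7 : x % 17 = r17 % 17)
    (e8 : x % 19 = r19 % 19) (h2 : r8 % 2 ≠ 0) (h3 : r27 % 3 ≠ 0) (h5 : r25 % 5 ≠ 0)
    (h7 : r7 % 7 ≠ 0) (h11 : r11 % 11 ≠ 0) (h13 : r13 % 13 ≠ 0) (h17 : r17 % 17 ≠ 0)
    (h19 : r19 % 19 ≠ 0) : x % 2 ≠ 0 ∧ x % 3 ≠ 0 ∧ x % 5 ≠ 0 ∧ x % 7 ≠ 0 ∧ x % 11 ≠ 0 ∧
      x % 13 ≠ 0 ∧ x % 17 ≠ 0 ∧ x % 19 ≠ 0 := by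
  refine ⟨?_, ?_, ?_, ?_, ?_, ?_, ?_, ?_⟩
  · clear * - e1 h2
    omega
  · clear * - e2 h3
    omega
  · clear * - e3 h5
    omega
  · clear * - e4 h7
    omega
  · clear * - e5 h11
    omega
  · clear * - e6 h13
    omega
  · clear * - e7 h17
    omega
  · clear * - e8 h19
    omega

/-- reduction modulo a multiple of `W` -/
theorem helper52_red {x : ℕ} (t : ℕ) (h : x % 2 ≠ 0 ∧ x % 3 ≠ 0 ∧ x % 5 ≠ 0 ∧ x % 7 ≠ 0 ∧
    x % 11 ≠ 0 ∧ x % 13 ≠ 0 ∧ x % 17 ≠ 0 ∧ x % 19 ≠ 0) :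
    Nat.Coprime (x % (t * 9699690)) 9699690 := by
  obtain ⟨h2, h3, h5, h7, h11, h13, h17, h19⟩ := h
  have key : ∀ p : ℕ, p ∣ 9699690 → x % p ≠ 0 → x % (t * 9699690) % p ≠ 0 := by
    intro p hp hx
    rw [Nat.mod_mod_of_dvd _ (Dvd.dvd.mul_left hp t)]
    exact hx
  exact helper52_copW (key 2 (by norm_num) h2) (key 3 (by norm_num) h3) (key 5 (by norm_num) h5)
    (key 7 (by norm_num) h7) (key 11 (by norm_num) h11) (key 13 (by norm_num) h13)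
    (key 17 (by norm_num) h17) (key 19 (by norm_num) h19)

/-- the local conditions before reduction -/
theorem helper52_pre (M : ℕ) (hM2 : M % 2 = 1) (hM3 : M % 3 = 1) : ∃ c b d : ℕ,
    45 * c + 36 * b + 4 * d ≡ M [MOD 180 * 9699690] ∧
    (c % 2 ≠ 0 ∧ c % 3 ≠ 0 ∧ c % 5 ≠ 0 ∧ c % 7 ≠ 0 ∧ c % 11 ≠ 0 ∧ c % 13 ≠ 0 ∧ c % 17 ≠ 0 ∧
      c % 19 ≠ 0) ∧
    (b % 2 ≠ 0 ∧ b % 3 ≠ 0 ∧ b % 5 ≠ 0 ∧ b % 7 ≠ 0 ∧ b % 11 ≠ 0 ∧ b % 13 ≠ 0 ∧ b % 17 ≠ 0 ∧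
      b % 19 ≠ 0) ∧
    (d % 2 ≠ 0 ∧ d % 3 ≠ 0 ∧ d % 5 ≠ 0 ∧ d % 7 ≠ 0 ∧ d % 11 ≠ 0 ∧ d % 13 ≠ 0 ∧ d % 17 ≠ 0 ∧
      d % 19 ≠ 0) ∧ d % 42 = 1 ∧ c % 7 ≠ 1 ∧ b % 7 ≠ 1 := by
  obtain ⟨d5, hd5', hd5''⟩ : ∃ d5, (d5 = 1 ∨ d5 = 2) ∧ (M + d5) % 5 ≠ 0 := by
    by_cases h : M % 5 = 4
    · exact ⟨2, Or.inr rfl, by omega⟩
    · exact ⟨1, Or.inl rfl, by omega⟩
  obtain ⟨c7, hc7, b7, hb7, h71, h72, h73, h74, h75⟩ := helper52_loc7 (M % 7)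
    (Nat.mod_lt _ (by norm_num))
  obtain ⟨c11, hc11, b11, hb11, h111, h112, h113⟩ := helper52_loc11 (M % 11)
    (Nat.mod_lt _ (by norm_num))
  obtain ⟨c13, hc13, b13, hb13, h131, h132, h133⟩ := helper52_loc13 (M % 13)
    (Nat.mod_lt _ (by norm_num))
  obtain ⟨c17, hc17, b17, hb17, h171, h172, h173⟩ := helper52_loc17 (M % 17)
    (Nat.mod_lt _ (by norm_num))
  obtain ⟨c19, hc19, b19, hb19, h191, h192, h193⟩ := helper52_loc19 (M % 19)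
    (Nat.mod_lt _ (by norm_num))
  obtain ⟨c, ec1, ec2, ec3, ec4, ec5, ec6, ec7, ec8⟩ := helper52_crt8 (5 * M) 1 1 c7 c11 c13 c17 c19
  obtain ⟨b, eb1, eb2, eb3, eb4, eb5, eb6, eb7, eb8⟩ := helper52_crt8 1 1 (16 * (M + 5 + 21 * d5))
    b7 b11 b13 b17 b19
  obtain ⟨d, ed1, ed2, ed3, ed4, ed5, ed6, ed7, ed8⟩ := helper52_crt8 1 (7 * M) d5 1 1 1 1 1
  refine ⟨c, b, d, ?_, ?_, ?_, ?_, ?_, ?_, ?_⟩
  · apply helper52_all
    · clear * - ec1 eb1 ed1 hM2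
      omega
    · clear * - ec2 eb2 ed2 hM3
      omega
    · clear * - ec3 eb3 ed3
      omega
    · clear * - ec4 eb4 ed4 h75
      omega
    · clear * - ec5 eb5 ed5 h113
      omega
    · clear * - ec6 eb6 ed6 h133
      omega
    · clear * - ec7 eb7 ed7 h173
      omega
    · clear * - ec8 eb8 ed8 h193
      omega
  · refine helper52_res ec1 ec2 ec3 ec4 ec5 ec6 ec7 ec8 ?_ (by norm_num) (by norm_num) ?_ ?_ ?_ ?_ ?_
    · clear * - hM2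
      omega
    · rwa [Nat.mod_eq_of_lt hc7]
    · rwa [Nat.mod_eq_of_lt hc11]
    · rwa [Nat.mod_eq_of_lt hc13]
    · rwa [Nat.mod_eq_of_lt hc17]
    · rwa [Nat.mod_eq_of_lt hc19]
  · refine helper52_res eb1 eb2 eb3 eb4 eb5 eb6 eb7 eb8 (by norm_num) (by norm_num) ?_ ?_ ?_ ?_ ?_ ?_
    · clear * - hd5''
      omega
    · rwa [Nat.mod_eq_of_lt hb7]
    · rwa [Nat.mod_eq_of_lt hb11]
    · rwa [Nat.mod_eq_of_lt hb13]
    · rwa [Nat.mod_eq_of_lt hb17]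
    · rwa [Nat.mod_eq_of_lt hb19]
  · refine helper52_res ed1 ed2 ed3 ed4 ed5 ed6 ed7 ed8 (by norm_num) ?_ ?_ (by norm_num)
      (by norm_num) (by norm_num) (by norm_num) (by norm_num)
    · clear * - hM3
      omega
    · clear * - hd5'
      omega
  · clear * - ed1 ed2 ed4 hM3
    omega
  · clear * - ec4 h72 hc7
    omega
  · clear * - eb4 h74 hb7
    omega

/-- fi:1: the local conditions, `W = 2 * 3 * 5 * 7 * 11 * 13 * 17 * 19 = 9699690`. -/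
theorem local_sol (k : ℕ) (hk : 1000 ≤ k) : ∃ c b d : ℕ, c < 4 * 9699690 ∧ b < 5 * 9699690 ∧
    d < 45 * 9699690 ∧ Nat.Coprime c (4 * 9699690) ∧ Nat.Coprime b (5 * 9699690) ∧
    Nat.Coprime d (45 * 9699690) ∧
    45 * c + 36 * b + 4 * d ≡ 6 * k - 641 [MOD 180 * 9699690] ∧ d % 42 = 1 ∧ c % 7 ≠ 1 ∧
    b % 7 ≠ 1 := by
  obtain ⟨c, b, d, hmain, hc, hb, hd, h42, hc1, hb1⟩ := helper52_pre (6 * k - 641)
    (by omega) (by omega)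
  refine ⟨c % (4 * 9699690), b % (5 * 9699690), d % (45 * 9699690), Nat.mod_lt _ (by norm_num),
    Nat.mod_lt _ (by norm_num), Nat.mod_lt _ (by norm_num), ?_, ?_, ?_, ?_, ?_, ?_, ?_⟩
  · refine Nat.Coprime.mul_right ?_ (helper52_red 4 hc)
    have h2 : c % (4 * 9699690) % 2 ≠ 0 := by
      rw [Nat.mod_mod_of_dvd _ (by norm_num)]
      exact hc.1
    rw [show 4 = 2 ^ 2 by norm_num] at *
    exact (helper52_cop (by norm_num) h2).pow_right 2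
  · refine Nat.Coprime.mul_right ?_ (helper52_red 5 hb)
    have h5 : b % (5 * 9699690) % 5 ≠ 0 := by
      rw [Nat.mod_mod_of_dvd _ (by norm_num)]
      exact hb.2.2.1
    exact helper52_cop (by norm_num) h5
  · refine Nat.Coprime.mul_right ?_ (helper52_red 45 hd)
    have h3 : d % (45 * 9699690) % 3 ≠ 0 := by
      rw [Nat.mod_mod_of_dvd _ (by norm_num)]
      exact hd.2.1
    have h5 : d % (45 * 9699690) % 5 ≠ 0 := by
      rw [Nat.mod_mod_of_dvd _ (by norm_num)]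
      exact hd.2.2.1
    have h45 := ((helper52_cop (by norm_num) h3).pow_right 2).mul_right
      (helper52_cop (by norm_num) h5)
    have e45 : 3 ^ 2 * 5 = 45 := by norm_num
    rw [e45] at h45
    exact h45
  · refine Nat.ModEq.trans ?_ hmain
    have e1 : 45 * (c % (4 * 9699690)) ≡ 45 * c [MOD 180 * 9699690] := by
      have := (Nat.mod_modEq c (4 * 9699690)).mul_left' 45
      rwa [← mul_assoc] at this
    have e2 : 36 * (b % (5 * 9699690)) ≡ 36 * b [MOD 180 * 9699690] := by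
      have := (Nat.mod_modEq b (5 * 9699690)).mul_left' 36
      rwa [← mul_assoc] at this
    have e3 : 4 * (d % (45 * 9699690)) ≡ 4 * d [MOD 180 * 9699690] := by
      have := (Nat.mod_modEq d (45 * 9699690)).mul_left' 4
      rwa [← mul_assoc] at this
    exact (e1.add e2).add e3
  · rw [Nat.mod_mod_of_dvd _ (by norm_num)]
    exact h42
  · rw [Nat.mod_mod_of_dvd _ (by norm_num)]
    exact hc1
  · rw [Nat.mod_mod_of_dvd _ (by norm_num)]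
    exact hb1

end Pool.Agent.helper74.TG
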